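import Pool.Agent.helper69.SN.SpecA

/-!
Row sn:aCNG: the cone `GG B` and congruence, from aCNJ (covariance) and aEQV (direction
independence).
-/

set_option linter.unusedVariables false

namespace Pool.Agent.helper30.SN

open Pool.Agent.helper83.SC Pool.Agent.helper69.SN

theorem aCNG_psd {m n : ℕ} (B : Fin n → Mat m) (hB : Psd B) (g : Mat m) :
    Psd (fun i => g * B i * g.transpose) := by
  intro i
  have h := (hB i).mul_mul_conjTranspose_same g
  rw [Matrix.conjTranspose_eq_transpose_of_trivial] at h
  exact h

theorem aCNG (hJ : aCNJ_stmt) (hE : aEQV_stmt) : aCNG_stmt := by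
  intro m n B hB g M hg hM
  have hP : (g * (1 : Mat m) * g.transpose).PosDef := by
    have h1 : (1 : Mat m).PosDef := Matrix.PosDef.one
    have hu : IsUnit g := (Matrix.isUnit_iff_isUnit_det g).2 (isUnit_iff_ne_zero.2 hg)
    have h := (Matrix.IsUnit.posDef_star_right_conjugate_iff (x := (1 : Mat m)) hu).2 h1
    rw [Matrix.star_eq_conjTranspose, Matrix.conjTranspose_eq_transpose_of_trivial] at h
    exact h
  have hsym : (g * M * g.transpose).IsSymm := by
    have h := hM.1
    unfold Matrix.IsSymm at h ⊢
    rw [Matrix.transpose_mul, Matrix.transpose_mul, Matrix.transpose_transpose, h,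
      Matrix.mul_assoc]
  refine (hE (fun i => g * B i * g.transpose) (aCNG_psd B hB g) (g * M * g.transpose)
    (g * (1 : Mat m) * g.transpose) hsym hP).2 ?_
  intro t ht
  have e : g * M * g.transpose + t • (g * (1 : Mat m) * g.transpose) =
      g * (M + t • (1 : Mat m)) * g.transpose := by
    rw [Matrix.mul_add, Matrix.add_mul, Matrix.mul_smul, Matrix.smul_mul]
  rw [e, hJ]
  have h1 : 0 < Ph B (M + t • (1 : Mat m)) := lt_of_lt_of_le (pow_pos ht m) (hM.2 t ht.le)
  positivity

end Pool.Agent.helper30.SN
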