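import Pool.Agent.helper40.SN.SpecD
import Pool.Agent.helper53.SC.HS1

/-!
Row sn:dSTR: `EP (dim D)` implies `EP*` for `D` (stretching of the complement of `D`).
-/

set_option autoImplicit false
set_option linter.unusedVariables false

open scoped Pointwise ContDiff
open MeasureTheory Set Filter Topology Pool.Agent.helper83.SC Pool.Agent.helper69.SN

namespace Pool.Agent.helper40.SN

/-- Expansion in the standard basis. -/
theorem dSTR_sum {m : ℕ} (v : E m) : v = ∑ l, v l • (e l : E m) := by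
  have h := (EuclideanSpace.basisFun (Fin m) ℝ).sum_repr v
  simp only [EuclideanSpace.basisFun_repr, EuclideanSpace.basisFun_apply] at h
  exact h.symm

/-- The matrix of a linear map (transposed). -/
noncomputable def dSTR_mat {m : ℕ} (L : E m →L[ℝ] E m) : Mat m :=
  Matrix.of fun i l => (L (e i)) l

theorem dSTR_pd_comp {m : ℕ} (f : E m → ℝ) (hf : Differentiable ℝ f) (L : E m →L[ℝ] E m)
    (i : Fin m) (x : E m) :
    pd i (fun y => f (L y)) x = ∑ l, dSTR_mat L i l * pd l f (L x) := by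
  have h1 : HasFDerivAt (fun y => f (L y)) ((fderiv ℝ f (L x)).comp L) x :=
    (hf (L x)).hasFDerivAt.comp x L.hasFDerivAt
  unfold pd
  rw [h1.fderiv, ContinuousLinearMap.comp_apply]
  conv_lhs => rw [dSTR_sum (L (e i))]
  rw [map_sum]
  refine Finset.sum_congr rfl fun l _ => ?_
  rw [map_smul, smul_eq_mul]
  rfl

theorem dSTR_pd_contDiff {m : ℕ} {f : E m → ℝ} (hf : ContDiff ℝ ∞ f) (i : Fin m) :
    ContDiff ℝ ∞ (pd i f) := by
  have h : ContDiff ℝ ∞ (fderiv ℝ f) := hf.fderiv_right (m := ∞) (by simp)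
  exact h.clm_apply contDiff_const

theorem dSTR_pd_sum {m : ℕ} (F : Fin m → E m → ℝ) (hF : ∀ k, Differentiable ℝ (F k))
    (c : Fin m → ℝ) (i : Fin m) (x : E m) :
    pd i (fun y => ∑ k, c k * F k y) x = ∑ k, c k * pd i (F k) x := by
  have h : HasFDerivAt (fun y => ∑ k, c k * F k y) (∑ k, c k • fderiv ℝ (F k) x) x := by
    refine HasFDerivAt.fun_sum fun k _ => ?_
    exact ((hF k x).hasFDerivAt).const_mul (c k)
  unfold pd
  rw [h.fderiv, sum_apply]
  rfl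

/-- The Hessian of a composition with a linear map. -/
theorem dSTR_hess_comp {m : ℕ} (f : E m → ℝ) (hf : ContDiff ℝ ∞ f) (L : E m →L[ℝ] E m) (x : E m) :
    hess (fun y => f (L y)) x = dSTR_mat L * hess f (L x) * (dSTR_mat L).transpose := by
  have hd : Differentiable ℝ f := hf.differentiable (by simp)
  have hd2 : ∀ k, Differentiable ℝ (pd k f) := fun k =>
    (dSTR_pd_contDiff hf k).differentiable (by simp)
  ext i j
  have h1 : (pd j fun y => f (L y)) = fun y => ∑ k, dSTR_mat L j k * (fun z => pd k f (L z)) y := by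
    funext y
    exact dSTR_pd_comp f hd L j y
  show pd i (pd j fun y => f (L y)) x = _
  rw [h1, dSTR_pd_sum (fun k z => pd k f (L z)) (fun k => (hd2 k).comp L.differentiable)]
  rw [Matrix.mul_apply]
  refine Finset.sum_congr rfl fun k _ => ?_
  rw [dSTR_pd_comp (pd k f) (hd2 k) L i x, Matrix.mul_apply, Matrix.transpose_apply, mul_comm]
  rfl

theorem dSTR_mat_mul {m : ℕ} (L L' : E m →L[ℝ] E m) :
    dSTR_mat L * dSTR_mat L' = dSTR_mat (L'.comp L) := by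
  ext i j
  rw [Matrix.mul_apply]
  show ∑ l, (L (e i)) l * (L' (e l)) j = (L' (L (e i))) j
  conv_rhs => rw [dSTR_sum (L (e i))]
  rw [map_sum]
  simp

theorem dSTR_mat_id {m : ℕ} : dSTR_mat (ContinuousLinearMap.id ℝ (E m)) = 1 := by
  ext i j
  show (e i : E m) j = (1 : Mat m) i j
  unfold e
  rw [Matrix.one_apply]
  simp [eq_comm]

/-- The stretching. -/
noncomputable def dSTR_T {m : ℕ} (D : Submodule ℝ (E m)) (κ : ℝ) : E m →L[ℝ] E m :=
  pj D + κ • (ContinuousLinearMap.id ℝ (E m) - pj D)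

theorem dSTR_T_apply {m : ℕ} (D : Submodule ℝ (E m)) (κ : ℝ) (x : E m) :
    dSTR_T D κ x = pj D x + κ • (x - pj D x) := by
  simp [dSTR_T]

theorem dSTR_pj_mem {m : ℕ} (D : Submodule ℝ (E m)) (x : E m) : pj D x ∈ D := by
  unfold pj
  exact Submodule.starProjection_apply_mem D x

theorem dSTR_pj_eq {m : ℕ} (D : Submodule ℝ (E m)) {x : E m} (hx : x ∈ D) : pj D x = x := by
  unfold pj
  exact Submodule.starProjection_eq_self_iff.2 hx

theorem dSTR_pj_pj {m : ℕ} (D : Submodule ℝ (E m)) (x : E m) : pj D (pj D x) = pj D x :=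
  dSTR_pj_eq D (dSTR_pj_mem D x)

theorem dSTR_pj_T {m : ℕ} (D : Submodule ℝ (E m)) (κ : ℝ) (x : E m) :
    pj D (dSTR_T D κ x) = pj D x := by
  rw [dSTR_T_apply, map_add, map_smul, map_sub, dSTR_pj_pj]
  simp

theorem dSTR_T_comp {m : ℕ} (D : Submodule ℝ (E m)) {κ κ' : ℝ} (h : κ' * κ = 1) (x : E m) :
    dSTR_T D κ' (dSTR_T D κ x) = x := by
  rw [dSTR_T_apply D κ', dSTR_pj_T, dSTR_T_apply, add_sub_cancel_left, smul_smul, h, one_smul]
  abel

theorem dSTR_pj_le {m : ℕ} (D : Submodule ℝ (E m)) (x : E m) : ‖pj D x‖ ≤ ‖x‖ := by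
  unfold pj
  exact Submodule.norm_starProjection_apply_le D x

theorem dSTR_sub_le {m : ℕ} (D : Submodule ℝ (E m)) (x : E m) : ‖x - pj D x‖ ≤ ‖x‖ := by
  have h := Submodule.norm_starProjection_apply_le (Dᗮ) x
  rwa [Submodule.starProjection_orthogonal_val] at h

theorem dSTR_convex_comp {m : ℕ} {f : E m → ℝ} (hf : CV f) (L : E m →L[ℝ] E m) :
    CV (fun y => f (L y)) := by
  have h := hf.comp_linearMap L.toLinearMap
  rw [preimage_univ] at h
  exact h

theorem dSTR_flat {m : ℕ} (D : Submodule ℝ (E m)) (f : E m → ℝ) {v : E m} (hv : v ∈ D)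
    (h : FlatAt (fun x => f (pj D x)) 0 v) : FlatAt f 0 v := by
  obtain ⟨ε, hε, h⟩ := h
  refine ⟨ε, hε, ?_⟩
  simp only [zero_add, zero_sub, map_neg, map_smul, map_zero, dSTR_pj_eq D hv] at h ⊢
  exact h

/-- The choice of the stretching factor. -/
theorem dSTR_choice {m n : ℕ} (D : Submodule ℝ (E m)) (h : Fin n → E m → ℝ) (hc : ∀ i, CV (h i))
    (R η ρ : ℝ) (hη : 0 < η) (hρ : 0 < ρ) :
    ∃ κ : ℝ, 1 ≤ κ ∧ κ⁻¹ ≤ ρ ∧ ∀ i x, ‖x‖ ≤ R → |h i (dSTR_T D κ⁻¹ x) - h i (pj D x)| ≤ η := by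
  have key : ∀ i, ∀ᶠ κ : ℝ in atTop, ∀ x, ‖x‖ ≤ R →
      |h i (dSTR_T D κ⁻¹ x) - h i (pj D x)| ≤ η := by
    intro i
    have hcont : Continuous (h i) := (hc i).locallyLipschitz.continuous
    have hu := (isCompact_closedBall (0 : E m) (R + 1)).uniformContinuousOn_of_continuous
      hcont.continuousOn
    rw [Metric.uniformContinuousOn_iff] at hu
    obtain ⟨d, hd, hu⟩ := hu η hη
    have h0 : Tendsto (fun κ : ℝ => κ⁻¹ * R) atTop (𝓝 (0 * R)) :=
      tendsto_inv_atTop_zero.mul_const R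
    rw [zero_mul] at h0
    have h1 : ∀ᶠ κ : ℝ in atTop, κ⁻¹ * R < min d 1 :=
      h0.eventually_lt_const (lt_min hd one_pos)
    filter_upwards [h1, eventually_gt_atTop (0 : ℝ)] with κ hκ hκ0 x hx
    have e1 : dSTR_T D κ⁻¹ x - pj D x = κ⁻¹ • (x - pj D x) := by
      rw [dSTR_T_apply, add_sub_cancel_left]
    have e2 : ‖dSTR_T D κ⁻¹ x - pj D x‖ < min d 1 := by
      rw [e1, norm_smul, Real.norm_eq_abs, abs_of_pos (inv_pos.2 hκ0)]
      refine lt_of_le_of_lt ?_ hκ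
      exact mul_le_mul_of_nonneg_left ((dSTR_sub_le D x).trans hx) (inv_pos.2 hκ0).le
    have m1 : pj D x ∈ Metric.closedBall (0 : E m) (R + 1) := by
      rw [mem_closedBall_zero_iff]
      linarith [dSTR_pj_le D x]
    have m2 : dSTR_T D κ⁻¹ x ∈ Metric.closedBall (0 : E m) (R + 1) := by
      rw [mem_closedBall_zero_iff]
      have e3 : ‖dSTR_T D κ⁻¹ x‖ ≤ ‖dSTR_T D κ⁻¹ x - pj D x‖ + ‖pj D x‖ := by
        have := norm_add_le (dSTR_T D κ⁻¹ x - pj D x) (pj D x)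
        rwa [sub_add_cancel] at this
      have e4 := lt_of_lt_of_le e2 (min_le_right d 1)
      linarith [dSTR_pj_le D x]
    have := hu _ m2 _ m1 (by rw [dist_eq_norm]; exact lt_of_lt_of_le e2 (min_le_left d 1))
    rw [Real.dist_eq] at this
    exact this.le
  have k2 : ∀ᶠ κ : ℝ in atTop, ∀ i, ∀ x, ‖x‖ ≤ R →
      |h i (dSTR_T D κ⁻¹ x) - h i (pj D x)| ≤ η := eventually_all.2 key
  have k3 : ∀ᶠ κ : ℝ in atTop, κ⁻¹ ≤ ρ :=
    (tendsto_inv_atTop_zero.eventually_lt_const hρ).mono fun κ hκ => hκ.le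
  obtain ⟨κ, a, b, c⟩ := (k2.and (k3.and (eventually_ge_atTop (1 : ℝ)))).exists
  exact ⟨κ, c, b, a⟩

theorem dSTR (hCNG : aCNG_stmt) : dSTR_stmt := by
  intro m n S D h hEP hc hH ρ hρ
  have hr : 0 < ρ / 3 := by positivity
  obtain ⟨δ, η, R, hδ, hη, hpot⟩ := hEP S D (fun i x => h i (pj D x)) rfl
    (fun i => dSTR_convex_comp (hc i) (pj D))
    (fun i x => by show h i (pj D (pj D x)) = h i (pj D x); rw [dSTR_pj_pj])
    (fun I hI W hW hf => hH I hI W hW fun v hv i hi => dSTR_flat D (h i) (hW hv) (hf v hv i hi))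
    (ρ / 3) hr
  obtain ⟨κ, hκ1, hκρ, hκ⟩ := dSTR_choice D h hc R (η / 2) (ρ / 3) (by positivity) hr
  have hκ0 : 0 < κ := by linarith
  have hinv : κ * κ⁻¹ = 1 := mul_inv_cancel₀ hκ0.ne'
  have hinv' : κ⁻¹ * κ = 1 := inv_mul_cancel₀ hκ0.ne'
  have hi0 : 0 < κ⁻¹ := inv_pos.2 hκ0
  have hi1 : κ⁻¹ ≤ 1 := inv_le_one_of_one_le₀ hκ1
  -- the small tube
  have hopen : IsOpen {x | dSTR_T D κ x ∈ Tube D (ρ / 3)} := by
    have : {x | dSTR_T D κ x ∈ Tube D (ρ / 3)} =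
        {x | ‖pj D (dSTR_T D κ x)‖ < ρ / 3} ∩ {x | ‖dSTR_T D κ x - pj D (dSTR_T D κ x)‖ < 1} := rfl
    rw [this]
    refine (isOpen_lt ?_ continuous_const).inter (isOpen_lt ?_ continuous_const)
    · exact ((pj D).continuous.comp (dSTR_T D κ).continuous).norm
    · exact ((dSTR_T D κ).continuous.sub ((pj D).continuous.comp (dSTR_T D κ).continuous)).norm
  have hsub : {x | dSTR_T D κ x ∈ Tube D (ρ / 3)} ⊆ Metric.closedBall (0 : E m) (2 * ρ / 3) := by
    intro x hx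
    obtain ⟨h1, h2⟩ := hx
    rw [dSTR_pj_T] at h1 h2
    rw [dSTR_T_apply, add_sub_cancel_left, norm_smul, Real.norm_eq_abs, abs_of_pos hκ0] at h2
    have h3 : ‖x - pj D x‖ < κ⁻¹ := by
      have : κ⁻¹ * (κ * ‖x - pj D x‖) < κ⁻¹ * 1 := mul_lt_mul_of_pos_left h2 hi0
      rwa [← mul_assoc, hinv', one_mul, mul_one] at this
    rw [mem_closedBall_zero_iff]
    have h4 : ‖x‖ ≤ ‖x - pj D x‖ + ‖pj D x‖ := by
      have := norm_add_le (x - pj D x) (pj D x)
      rwa [sub_add_cancel] at this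
    linarith
  refine ⟨{x | dSTR_T D κ x ∈ Tube D (ρ / 3)}, κ ^ 2, δ / (2 * κ), η / 2, R, hopen, ?_, by positivity,
    by positivity, by positivity, ?_⟩
  · refine (closure_minimal hsub Metric.isClosed_closedBall).trans ?_
    exact Metric.closedBall_subset_ball (by linarith)
  intro a ha
  have hTle : ∀ x, ‖dSTR_T D κ⁻¹ x‖ ≤ ‖x‖ := by
    intro x
    have e1 : dSTR_T D κ⁻¹ x = (1 - κ⁻¹) • pj D x + κ⁻¹ • x := by
      rw [dSTR_T_apply, smul_sub, sub_smul, one_smul]; abel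
    rw [e1]
    refine (norm_add_le _ _).trans ?_
    rw [norm_smul, norm_smul, Real.norm_eq_abs, Real.norm_eq_abs, abs_of_pos hi0,
      abs_of_nonneg (by linarith : (0 : ℝ) ≤ 1 - κ⁻¹)]
    have := mul_le_mul_of_nonneg_left (dSTR_pj_le D x) (by linarith : (0 : ℝ) ≤ 1 - κ⁻¹)
    nlinarith
  have hsm : ∀ i, SmC (fun x => a i (dSTR_T D κ⁻¹ x)) := fun i =>
    ⟨(ha.1 i).1.comp (dSTR_T D κ⁻¹).contDiff, dSTR_convex_comp (ha.1 i).2 _⟩
  have hnear : Near (fun i x => h i (pj D x)) η R (fun i x => a i (dSTR_T D κ⁻¹ x)) := by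
    refine ⟨hsm, fun i x hx => ?_⟩
    have e1 := ha.2 i (dSTR_T D κ⁻¹ x) ((hTle x).trans hx)
    have e2 := hκ i x hx
    rw [abs_le] at e1 e2 ⊢
    constructor <;> linarith [e1.1, e1.2, e2.1, e2.2]
  obtain ⟨ψ, hψ, hcl, hoff, hpos⟩ := hpot _ hnear
  have hdet : (dSTR_mat (dSTR_T D κ)).det ≠ 0 := by
    have e1 : dSTR_mat (dSTR_T D κ) * dSTR_mat (dSTR_T D κ⁻¹) = 1 := by
      rw [dSTR_mat_mul, ← dSTR_mat_id]
      congr 1
      ext1 x
      exact dSTR_T_comp D hinv' x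
    intro h0
    have e2 := congrArg Matrix.det e1
    rw [Matrix.det_mul, h0, zero_mul, Matrix.det_one] at e2
    exact zero_ne_one e2
  have hpsd : ∀ x, Psd (hs (fun i x => a i (dSTR_T D κ⁻¹ x)) (wt S 1 ∅ 0) x) := by
    intro x i
    have h1 : (hess (fun x => a i (dSTR_T D κ⁻¹ x)) x).PosSemidef := hess_psd_of (hsm i).1 (hsm i).2 x
    show (wt S 1 ∅ 0 i • hess (fun x => a i (dSTR_T D κ⁻¹ x)) x).PosSemidef
    refine h1.smul ?_
    unfold wt
    split_ifs <;> norm_num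
  refine ⟨fun x => ψ (dSTR_T D κ x), hψ.comp (dSTR_T D κ).contDiff, ?_, ?_, ?_⟩
  · intro x
    have h1 := hCNG (hs (fun i x => a i (dSTR_T D κ⁻¹ x)) (wt S 1 ∅ 0) (dSTR_T D κ x))
      (hpsd (dSTR_T D κ x)) (dSTR_mat (dSTR_T D κ)) (hess ψ (dSTR_T D κ x)) hdet
      (hcl (dSTR_T D κ x))
    rw [dSTR_hess_comp ψ hψ (dSTR_T D κ) x]
    have h2 : (fun i => dSTR_mat (dSTR_T D κ) *
        hs (fun i x => a i (dSTR_T D κ⁻¹ x)) (wt S 1 ∅ 0) (dSTR_T D κ x) i *
        (dSTR_mat (dSTR_T D κ)).transpose) = hs a (wt S 1 ∅ 0) x := by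
      funext i
      show dSTR_mat (dSTR_T D κ) * (wt S 1 ∅ 0 i • hess (fun x => a i (dSTR_T D κ⁻¹ x))
        (dSTR_T D κ x)) * (dSTR_mat (dSTR_T D κ)).transpose = wt S 1 ∅ 0 i • hess (a i) x
      rw [Matrix.mul_smul, Matrix.smul_mul, ← dSTR_hess_comp _ (hsm i).1]
      congr 1
      congr 1
      funext y
      rw [dSTR_T_comp D hinv' y]
    rw [h2] at h1
    exact h1
  · intro x hx
    refine (hoff (dSTR_T D κ x) hx).trans ?_
    unfold Qf
    rw [dSTR_pj_T, dSTR_T_apply, add_sub_cancel_left, norm_smul, mul_pow, Real.norm_eq_abs, sq_abs]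
  · intro x hx
    have h1 : ‖dSTR_T D κ x‖ ≤ δ := by
      have e1 : ‖dSTR_T D κ x‖ ≤ ‖pj D x‖ + κ * ‖x - pj D x‖ := by
        rw [dSTR_T_apply]
        refine (norm_add_le _ _).trans ?_
        rw [norm_smul, Real.norm_eq_abs, abs_of_pos hκ0]
      have e2 := dSTR_pj_le D x
      have e3 := mul_le_mul_of_nonneg_left (dSTR_sub_le D x) hκ0.le
      have e4 : ‖x‖ ≤ κ * ‖x‖ := by nlinarith [norm_nonneg x]
      have e5 : κ * ‖x‖ ≤ δ / 2 := by
        have := mul_le_mul_of_nonneg_left hx hκ0.le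
        refine this.trans (le_of_eq ?_)
        field_simp
      linarith
    refine le_trans ?_ (hpos _ h1)
    rw [div_le_iff₀ (by positivity)]
    nlinarith
end Pool.Agent.helper40.SN
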